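import Pool.Agent.Helper84.FX.StX

/-!
# Module DGW: the inclusion of the double cylinders
-/

set_option autoImplicit false

namespace Pool.Agent.Helper98.FX

open Set Pool.Agent.Helper84.FX Pool.Agent.Helper72.FX

/-- Replace the coordinates `ρ` and `σ`. -/
private def up (z : Fin 10 → ℂ) (α β : ℂ) : Fin 10 → ℂ :=
  Function.update (Function.update z 3 α) 5 β

private lemma up3 (z : Fin 10 → ℂ) (α β : ℂ) : up z α β 3 = α := by
  simp [up]

private lemma up5 (z : Fin 10 → ℂ) (α β : ℂ) : up z α β 5 = β := by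
  simp [up]

private lemma upo (z : Fin 10 → ℂ) (α β : ℂ) (i : Fin 10) (h3 : i ≠ 3) (h5 : i ≠ 5) :
    up z α β i = z i := by
  simp [up, Function.update_of_ne h5, Function.update_of_ne h3]

private lemma up_self (z : Fin 10 → ℂ) (α β : ℂ) (hα : α = z 3) (hβ : β = z 5) :
    up z α β = z := by
  subst hα; subst hβ
  simp [up]

private lemma nz_up (z : Fin 10 → ℂ) (α β : ℂ) : nz (up z α β) = nz z := by
  unfold nz
  rw [upo z α β 0 (by decide) (by decide), upo z α β 1 (by decide) (by decide),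
    upo z α β 2 (by decide) (by decide)]

private lemma N1_up (U : Set ℂ) (z : Fin 10 → ℂ) (α β : ℂ) (hz : z ∈ N1 U)
    (h : β * z 6 = z 5 * z 6) : up z α β ∈ N1 U := by
  obtain ⟨h2, h4, h7, h8, h9, hn⟩ := hz
  refine ⟨?_, ?_, ?_, ?_, ?_, ?_⟩
  · rw [upo z α β 2 (by decide) (by decide)]; exact h2
  · rw [upo z α β 4 (by decide) (by decide)]; exact h4
  · rw [upo z α β 7 (by decide) (by decide)]; exact h7
  · rw [upo z α β 8 (by decide) (by decide)]; exact h8
  · rw [upo z α β 9 (by decide) (by decide)]; exact h9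
  · rw [nz_up, up5, upo z α β 6 (by decide) (by decide), h]; exact hn

private lemma N2_up (U : Set ℂ) (z : Fin 10 → ℂ) (α β : ℂ) (hz : z ∈ N2 U)
    (h : α * z 4 = z 3 * z 4) : up z α β ∈ N2 U := by
  obtain ⟨h2, h4, h7, h8, h9, hn⟩ := hz
  refine ⟨?_, ?_, ?_, ?_, ?_, ?_⟩
  · rw [upo z α β 2 (by decide) (by decide)]; exact h2
  · rw [upo z α β 6 (by decide) (by decide)]; exact h4
  · rw [upo z α β 7 (by decide) (by decide)]; exact h7
  · rw [upo z α β 8 (by decide) (by decide)]; exact h8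
  · rw [upo z α β 9 (by decide) (by decide)]; exact h9
  · rw [nz_up, up3, upo z α β 4 (by decide) (by decide), h]; exact hn

/-- The common value. -/
private noncomputable def mm (q : (Fin 10 → ℂ) × ℝ) : ℂ :=
  (1 - (q.2 : ℂ)) * q.1 5 + (q.2 : ℂ) * q.1 3

private lemma up_cont {T : Type} [TopologicalSpace T] (z : T → (Fin 10 → ℂ)) (α β : T → ℂ)
    (hz : Continuous z) (hα : Continuous α) (hβ : Continuous β) :
    Continuous (fun t => up (z t) (α t) (β t)) :=
  (hz.update 3 hα).update 5 hβ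

private lemma mm_cont : Continuous mm := by
  unfold mm
  fun_prop

/-- The homotopy. -/
private noncomputable def HH (p : ℝ × ((Fin 10 → ℂ) × ℝ)) : (Fin 10 → ℂ) × ℝ :=
  (up p.2.1 ((1 - (p.1 : ℂ)) * mm p.2 + (p.1 : ℂ) * p.2.1 3)
    ((1 - (p.1 : ℂ)) * mm p.2 + (p.1 : ℂ) * p.2.1 5), p.2.2)

private lemma HH_cont : Continuous HH := by
  unfold HH
  have hm : Continuous (fun p : ℝ × ((Fin 10 → ℂ) × ℝ) => mm p.2) := mm_cont.comp continuous_snd
  refine Continuous.prodMk (up_cont _ _ _ (by fun_prop) ?_ ?_) (by fun_prop)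
  · fun_prop
  · fun_prop

/-- The values of the homotopy satisfy the conditions on the multipliers. -/
private lemma key (U : Set ℂ) (q : (Fin 10 → ℂ) × ℝ) (hq : q ∈ DM (N1 U) (N2 U)) (s : ℂ) :
    (q.2 < 1 → ((1 - s) * mm q + s * q.1 5) * q.1 6 = q.1 5 * q.1 6) ∧
    (0 < q.2 → ((1 - s) * mm q + s * q.1 3) * q.1 4 = q.1 3 * q.1 4) := by
  obtain ⟨h0, h1, hN1, hN2⟩ := hq
  constructor
  · intro hlt
    rcases h0.eq_or_lt with h | h
    · have : mm q = q.1 5 := by simp [mm, ← h]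
      rw [this]; ring
    · have h6 : q.1 6 = 0 := (hN2 h).2.1
      rw [h6]; ring
  · intro hlt
    rcases h1.eq_or_lt with h | h
    · have : mm q = q.1 3 := by simp [mm, h]
      rw [this]; ring
    · have h4 : q.1 4 = 0 := (hN1 h).2.1
      rw [h4]; ring

private lemma HH_maps (U : Set ℂ) (p : ℝ × ((Fin 10 → ℂ) × ℝ)) (hp : p.2 ∈ DM (N1 U) (N2 U)) :
    HH p ∈ DM (N1 U) (N2 U) := by
  obtain ⟨k1, k2⟩ := key U p.2 hp (p.1 : ℂ)
  obtain ⟨h0, h1, hN1, hN2⟩ := hp
  exact ⟨h0, h1, fun h => N1_up U _ _ _ (hN1 h) (k1 h), fun h => N2_up U _ _ _ (hN2 h) (k2 h)⟩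

theorem hDGW : StHEQ → StDGW := by
  intro HEQ U
  refine HEQ _ _ _ _ id (fun q => HH (0, q)) ?_ ?_ ?_ ?_
  · refine ⟨continuousOn_id, ?_⟩
    intro q hq
    exact ⟨hq.1, hq.2.1, fun h => (hq.2.2.1 h).1, fun h => (hq.2.2.2 h).1⟩
  · refine ⟨(HH_cont.comp (by fun_prop : Continuous fun q : (Fin 10 → ℂ) × ℝ =>
      ((0 : ℝ), q))).continuousOn, ?_⟩
    intro q hq
    have hm := HH_maps U (0, q) hq
    obtain ⟨h0, h1, hN1, hN2⟩ := hm
    have h35 : (HH (0, q)).1 5 = (HH (0, q)).1 3 := by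
      simp only [HH, up3, up5, Complex.ofReal_zero, zero_mul, add_zero]
    exact ⟨h0, h1, fun h => ⟨hN1 h, h35⟩, fun h => ⟨hN2 h, h35⟩⟩
  · refine ⟨fun p => p.2, ⟨continuous_snd.continuousOn, fun p hp => hp.2⟩, ?_, fun x _ => rfl⟩
    intro q hq
    obtain ⟨h0, h1, hN1, hN2⟩ := hq
    have h35 : q.1 5 = q.1 3 := by
      rcases lt_or_ge q.2 1 with h | h
      · exact (hN1 h).2
      · exact (hN2 (by linarith)).2
    have hmm : mm q = q.1 3 := by
      unfold mm; rw [h35]; ring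
    show q = HH (0, q)
    unfold HH
    refine Prod.ext ?_ rfl
    refine (up_self _ _ _ ?_ ?_).symm
    · simp only [hmm]; push_cast; ring
    · simp only [hmm, h35]; push_cast; ring
  · refine ⟨HH, ⟨HH_cont.continuousOn, fun p hp => HH_maps U p hp.2⟩, fun x _ => rfl, ?_⟩
    intro q _
    show HH (1, q) = q
    unfold HH
    refine Prod.ext ?_ rfl
    refine up_self _ _ _ ?_ ?_
    · push_cast; ring
    · push_cast; ring

end Pool.Agent.Helper98.FX
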