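import Pool.Agent.Helper84.FX.StT

set_option autoImplicit false

/-!
# Project FX, module WEP: a weak equivalence has the relative lifting property.
-/

namespace Pool.Agent.Helper98.FX

open Set Pool.Agent.Helper84.FX

theorem hWEP : StHEP → StCCT → StWEP := by
  intro hHEP hCCT E F _ _ X Y f hWE n a b K ha hb hK hK0 hK1
  obtain ⟨P, hP, hP0, hPK⟩ := (hHEP F Y n b K hb hK).1 hK0
  have h1 : (1 : ℝ) ∈ II := ⟨zero_le_one, le_refl 1⟩
  have hb' : Mp (Cb n) Y (fun u => P (1, u)) := by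
    constructor
    · refine hP.1.comp (f := fun u : Fin n → ℝ => ((1 : ℝ), u)) (Continuous.continuousOn (by fun_prop)) ?_
      intro u hu
      exact ⟨h1, hu⟩
    · intro u hu
      exact hP.2 (show ((1 : ℝ), u) ∈ II ×ˢ Cb n from ⟨h1, hu⟩)
  have hB : ∀ u ∈ Bd n, P (1, u) = f (a u) := fun u hu => by
    rw [hPK 1 h1 u hu, hK1 u hu]
  obtain ⟨c, R, hc, hca, hR, hR0, hR1, hRb⟩ := hWE.2 n a (fun u => P (1, u)) ha hb' hB
  obtain ⟨H, hH, hH0, hH1, hHK⟩ := (hCCT F Y n P R K hP hR (fun u hu => (hR0 u hu).symm)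
    (fun s hs u hu => hPK s hs u hu)).1 (fun s hs u hu => by
      rw [hRb s hs u hu]
      exact hPK 1 h1 u hu)
  refine ⟨c, H, hc, hca, hH, fun u hu => ?_, fun u hu => ?_, hHK⟩
  · rw [hH0 u hu, hP0 u hu]
  · rw [hH1 u hu, hR1 u hu]

end Pool.Agent.Helper98.FX
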